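import Pool.Agent.MP_8be872_ag.H42.Grade

/-! The Koszul complex over an abstract graded ring with an action by derivations. -/

namespace Pool.Agent.MP_8be872_ag.H42

open Finset H38 H56

set_option linter.unusedSectionVars false

variable {V P : Type} [Fintype V] [DecidableEq V] [CommRing P] [Algebra ℂ P]
  {L : V × V → Prop} [DecidablePred L]

noncomputable def co (r β β' : V × V) : ℂ :=
  (if β.2 = r.2 ∧ β' = (β.1, r.1) then 1 else 0) - if β.1 = r.1 ∧ β' = (r.2, β.2) then 1 else 0

theorem actKos_eq (δ : V × V → Derivation ℂ P P) (r : V × V) :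
    actKos L δ r = (δ r).toLinearMap.compLeft (Finset (Subtype L)) +
      Th P fun β β' : Subtype L => co r β β' := rfl

theorem actKos_free (δ : V × V → Derivation ℂ P P) :
    actKos L δ = freeAct δ fun r => kap fun β β' : Subtype L => co r β β' := by
  funext r
  rw [actKos_eq, Th_eq]
  rfl

theorem actKos_apply (δ : V × V → Derivation ℂ P P) (r : V × V) (φ : Finset (Subtype L) → P) :
    actKos L δ r φ = (fun S => δ r (φ S)) + Th P (fun β β' : Subtype L => co r β β') φ := rfl

theorem sum_co {M : Type} [AddCommGroup M] [Module ℂ M] (r β : V × V) (F : V × V → M) :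
    ∑ γ, co r β γ • F γ =
      (if β.2 = r.2 then F (β.1, r.1) else 0) - if β.1 = r.1 then F (r.2, β.2) else 0 := by
  simp only [co, sub_smul, sum_sub_distrib, ite_and]
  congr 1 <;> split_ifs <;> simp

theorem co_brk (r r' β β' : V × V) :
    ∑ γ, co r' β γ * co r γ β' - ∑ γ, co r β γ * co r' γ β' =
      (if r.2 = r'.1 then co (r.1, r'.2) β β' else 0) -
        if r'.2 = r.1 then co (r'.1, r.2) β β' else 0 := by
  have e1 := sum_co r' β fun γ => co r γ β'
  have e2 := sum_co r β fun γ => co r' γ β'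
  simp only [smul_eq_mul] at e1 e2
  rw [e1, e2]
  obtain ⟨a, b⟩ := r
  obtain ⟨a', b'⟩ := r'
  obtain ⟨p, q⟩ := β
  have i1 : ∀ (A : Prop) [Decidable A] (z : ℂ), (if A then z else 0) = (if A then 1 else 0) * z := by
    intro A _ z; split_ifs <;> simp
  have i2 : ∀ (A B : Prop) [Decidable A] [Decidable B],
      (if A ∧ B then (1 : ℂ) else 0) = (if A then 1 else 0) * if B then 1 else 0 := by
    intro A B _ _; by_cases hA : A <;> by_cases hB : B <;> simp [hA, hB]
  rw [i1 (q = b'), i1 (p = a'), i1 (q = b), i1 (p = a), i1 (b = a'), i1 (b' = a)]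
  simp only [co, i2, eq_comm (a := a') (b := b), eq_comm (a := a) (b := b')]
  ring

theorem co_ne {r β β' : V × V} (h : co r β β' ≠ 0) :
    (β.2 = r.2 ∧ β' = (β.1, r.1)) ∨ (β.1 = r.1 ∧ β' = (r.2, β.2)) := by
  by_contra h'
  rw [not_or] at h'
  apply h
  simp only [co, if_neg h'.1, if_neg h'.2, sub_zero]

theorem sum_res {M : Type} [AddCommMonoid M] (g : V × V → M) (h : ∀ γ, ¬ L γ → g γ = 0) :
    ∑ γ : Subtype L, g γ = ∑ γ, g γ := by
  rw [← Finset.sum_subtype (univ.filter L) (by simp) g, Finset.sum_filter_of_ne]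
  intro γ _ hγ
  by_contra h'
  exact hγ (h γ h')

theorem rep_kos {R : V × V → Prop} [DecidablePred R] {x : V → G} {W : G → Submodule ℂ P}
    {δ : V × V → Derivation ℂ P P} (h : IsRep R x W fun r => (δ r).toLinearMap)
    (hL : ∀ r, R r → (∀ p, L (p, r.1) → L (p, r.2)) ∧ ∀ q, L (r.2, q) → L (r.1, q)) (k : G) :
    IsRep R x (freeW (fun S : Finset (Subtype L) => ∑ β ∈ S, (k - (x β.1.1 - x β.1.2))) W)
      (actKos L δ) where
  top := free_top _ h.top
  indep := free_indep _ h.indep
  brk r r' hr hr' := by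
    have hL' : ∀ r, R r → ∀ (f : V × V → ℂ) (β' : Subtype L),
        ∑ γ : Subtype L, f γ * co r γ β' = ∑ γ, f γ * co r γ β' := by
      intro r hr f β'
      refine sum_res (fun γ => f γ * co r γ β') fun γ hγ => ?_
      by_contra h0
      apply hγ
      rcases co_ne (right_ne_zero_of_mul h0) with ⟨h1, h2⟩ | ⟨h1, h2⟩
      · have := (hL r hr).1 γ.1 (h2 ▸ β'.2)
        rwa [← h1] at this
      · have := (hL r hr).2 γ.2 (h2 ▸ β'.2)
        rwa [← h1] at this
    have e1 := Th_Th (M := P) (fun β β' : Subtype L => co r β β') fun β β' => co r' β β'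
    simp only [hL' r hr, hL' r' hr', co_brk, Th_sub, Th_ite] at e1
    refine LinearMap.ext fun φ => ?_
    have e2 := LinearMap.congr_fun e1 φ
    have n1 := nat_Th (δ r).toLinearMap (fun β β' : Subtype L => co r' β β') φ
    have n2 := nat_Th (δ r').toLinearMap (fun β β' : Subtype L => co r β β') φ
    funext S
    have e3 := LinearMap.congr_fun (h.brk r r' hr hr') (φ S)
    have e4 := congrFun e2 S
    have m1 := congrFun n1 S
    have m2 := congrFun n2 S
    simp only [LinearMap.sub_apply, LinearMap.comp_apply, Module.End.mul_apply, Pi.sub_apply,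
      Derivation.coeFn_coe] at e3 e4 m1 m2
    simp only [LinearMap.sub_apply, LinearMap.comp_apply, actKos_apply, Pi.sub_apply,
      Pi.add_apply, map_add, m1, m2]
    have e5 : ∀ (A : Prop) [Decidable A] (s : V × V), (if A then actKos L δ s else 0) φ S =
        (if A then (δ s).toLinearMap else 0) (φ S) +
          (if A then Th P (fun β β' : Subtype L => co s β β') else 0) φ S := by
      intro A _ s
      split_ifs
      · rfl
      · simp
    rw [e5, e5]
    linear_combination e3 + e4
  wt r hr γ φ hφ := by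
    rw [actKos_apply]
    refine Submodule.add_mem _ (mem_freeW.2 fun S => ?_) (Th_extW _ (fun β β' h0 => ?_) hφ)
    · have := h.wt r hr _ _ (mem_freeW.1 hφ S)
      rwa [sub_add_eq_add_sub] at this
    · rcases co_ne h0 with ⟨h1, h2⟩ | ⟨h1, h2⟩
      · rw [h2, h1]; abel
      · rw [h2, h1]; abel

theorem contr_smul {O : Type} [Fintype O] [DecidableEq O] (o : O) (a : P) (φ : Finset O → P) :
    contr o (a • φ) = a • contr o φ := nat_contr (LinearMap.mulLeft ℂ a) o φ

theorem wedge_smul {O : Type} [Fintype O] [DecidableEq O] (o : O) (a : P) (φ : Finset O → P) :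
    wedge o (a • φ) = a • wedge o φ := nat_wedge (LinearMap.mulLeft ℂ a) o φ

theorem Th_smul {O : Type} [Fintype O] [DecidableEq O] (m : O → O → ℂ) (a : P)
    (φ : Finset O → P) : Th P m (a • φ) = a • Th P m φ := nat_Th (LinearMap.mulLeft ℂ a) m φ

theorem d_apply (μ : V × V → P) (φ : Finset (Subtype L) → P) :
    dKos L μ φ = ∑ β : Subtype L, μ β • contr β φ := by
  unfold dKos
  rw [LinearMap.sum_apply]
  rfl

theorem d_smul (μ : V × V → P) (a : P) (φ : Finset (Subtype L) → P) :
    dKos L μ (a • φ) = a • dKos L μ φ := by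
  simp only [d_apply, contr_smul, smul_sum, smul_smul, mul_comm]

theorem d_d (μ : V × V → P) (φ : Finset (Subtype L) → P) : dKos L μ (dKos L μ φ) = 0 := by
  have e : dKos L μ (dKos L μ φ) =
      ∑ β : Subtype L, ∑ β' : Subtype L, (μ β * μ β') • contr β (contr β' φ) := by
    rw [d_apply μ (dKos L μ φ)]
    simp only [d_apply μ φ, map_sum, contr_smul, smul_sum, smul_smul]
  have e' : dKos L μ (dKos L μ φ) = -dKos L μ (dKos L μ φ) := by
    conv_lhs => rw [e, sum_comm]
    rw [e, ← sum_neg_distrib]
    refine sum_congr rfl fun β _ => ?_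
    rw [← sum_neg_distrib]
    refine sum_congr rfl fun β' _ => ?_
    have := LinearMap.congr_fun (cc (M := P) β' β) φ
    simp only [Module.End.mul_apply, LinearMap.neg_apply] at this
    rw [this, mul_comm, smul_neg]
  have e2 : (2 : ℂ) • dKos L μ (dKos L μ φ) = 0 := by
    rw [two_smul]
    nth_rewrite 1 [e']
    exact neg_add_cancel _
  simpa using e2

theorem par_smul {O : Type} [Fintype O] [DecidableEq O] {p : Bool} (a : P) {φ : Finset O → P}
    (h : φ ∈ par O P p) : a • φ ∈ par O P p := by
  rw [mem_par] at h ⊢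
  intro S hS
  simp [h S hS]

theorem ext_smul {O : Type} [Fintype O] [DecidableEq O] {I : Ideal P} (a : P) {φ : Finset O → P}
    (h : φ ∈ extOf O (I.restrictScalars ℂ)) : a • φ ∈ extOf O (I.restrictScalars ℂ) := by
  rw [mem_extOf] at h ⊢
  exact fun S => I.mul_mem_left a (h S)

theorem smul_ext {O : Type} [Fintype O] [DecidableEq O] {I : Ideal P} {a : P} (h : a ∈ I)
    (φ : Finset O → P) : a • φ ∈ extOf O (I.restrictScalars ℂ) :=
  mem_extOf.2 fun S => I.mul_mem_right (φ S) h

theorem d_par (μ : V × V → P) {p : Bool} {φ : Finset (Subtype L) → P} (h : φ ∈ par _ P p) :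
    dKos L μ φ ∈ par _ P (!p) := by
  rw [d_apply]
  exact sum_mem fun β _ => par_smul _ (contr_par β h)

theorem d_ext (μ : V × V → P) {I : Ideal P} {φ : Finset (Subtype L) → P}
    (h : φ ∈ extOf _ (I.restrictScalars ℂ)) : dKos L μ φ ∈ extOf _ (I.restrictScalars ℂ) := by
  rw [d_apply]
  exact sum_mem fun β _ => ext_smul _ (contr_extOf β h)

theorem d_wedge (μ : V × V → P) (β : Subtype L) (φ : Finset (Subtype L) → P) :
    dKos L μ (wedge β φ) + wedge β (dKos L μ φ) = μ β • φ := by
  have e : ∀ β' : Subtype L, contr β' (wedge β φ) =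
      (if β' = β then φ else 0) - wedge β (contr β' φ) := by
    intro β'
    have := LinearMap.congr_fun (cw (M := P) β' β) φ
    simp only [Module.End.mul_apply, LinearMap.sub_apply] at this
    rw [this]
    split_ifs <;> rfl
  simp only [d_apply, e, map_sum, wedge_smul, smul_sub, sum_sub_distrib, sub_add_cancel,
    smul_ite, smul_zero, sum_ite_eq', mem_univ, if_true]

theorem d_wt (μ : V × V → P) {W : G → Submodule ℂ P}
    (hmul : ∀ α β, ∀ a ∈ W α, ∀ b ∈ W β, a * b ∈ W (α + β)) {c : Subtype L → G}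
    (hμ : ∀ β : Subtype L, μ β ∈ W (c β)) (γ : G) (φ : Finset (Subtype L) → P)
    (h : φ ∈ freeW (fun S => ∑ β ∈ S, c β) W γ) :
    dKos L μ φ ∈ freeW (fun S => ∑ β ∈ S, c β) W γ := by
  rw [d_apply]
  refine sum_mem fun β _ => mem_freeW.2 fun S => ?_
  have := hmul _ _ _ (hμ β) _ (mem_extW.1 (contr_extW (c := c) β h) S)
  rwa [← add_sub_assoc, add_sub_cancel] at this

theorem act_d (μ : V × V → P) (δ : V × V → Derivation ℂ P P) (r : V × V)
    (φ : Finset (Subtype L) → P) :
    actKos L δ r (dKos L μ φ) - dKos L μ (actKos L δ r φ) =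
      ∑ β : Subtype L, (δ r (μ β) - ∑ β' : Subtype L, co r β β' • μ β') • contr β φ := by
  have e : ∀ β : Subtype L, Th P (fun β β' : Subtype L => co r β β') (contr β φ) =
      contr β (Th P (fun β β' : Subtype L => co r β β') φ) -
        ∑ β0 : Subtype L, co r β0 β • contr β0 φ := by
    intro β
    have := LinearMap.congr_fun (Th_contr (M := P) (fun β β' : Subtype L => co r β β') β) φ
    simp only [Module.End.mul_apply, LinearMap.sub_apply, LinearMap.neg_apply,
      LinearMap.sum_apply, LinearMap.smul_apply] at this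
    rw [sub_eq_add_neg, ← this]; abel
  have n : ∀ β : Subtype L, contr β (fun S => δ r (φ S)) = fun S => δ r (contr β φ S) :=
    fun β => nat_contr (δ r).toLinearMap β φ
  have e2 : ∑ β : Subtype L, μ β • ∑ β0 : Subtype L, co r β0 β • contr β0 φ =
      ∑ β : Subtype L, (∑ β' : Subtype L, co r β β' • μ β') • contr β φ := by
    simp only [smul_sum, sum_smul]
    rw [sum_comm]
    refine sum_congr rfl fun β _ => sum_congr rfl fun β' _ => ?_
    rw [smul_comm, smul_assoc]
  rw [actKos_apply, actKos_apply, map_add]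
  simp only [d_apply, map_sum, Th_smul, e, n, smul_sub, sub_smul, sum_sub_distrib, e2]
  funext S
  simp only [Pi.add_apply, Pi.sub_apply, Finset.sum_apply, Pi.smul_apply, map_sum, smul_eq_mul,
    Derivation.leibniz, sum_add_distrib]
  simp only [mul_comm (contr _ φ S)]
  ring

end Pool.Agent.MP_8be872_ag.H42
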