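import Pool.Agent.MP_8be872_ag.H56.GSpec

/-! Anticommutation relations for `wedge` and `contr`. -/

namespace Pool.Agent.MP_8be872_ag.H42

open Finset H38 H56

set_option linter.unusedSectionVars false

variable {O M : Type} [Fintype O] [DecidableEq O] [AddCommGroup M] [Module ℂ M]

noncomputable def eps (o' o : O) : ℂ :=
  if Fintype.equivFin O o' < Fintype.equivFin O o then -1 else 1

theorem eps_self (o : O) : eps o o = 1 := by simp [eps]

theorem eps_swap {o o' : O} (h : o ≠ o') : eps o o' = -eps o' o := by
  unfold eps
  have h' : Fintype.equivFin O o ≠ Fintype.equivFin O o' := fun e => h ((Fintype.equivFin O).injective e)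
  rcases lt_or_gt_of_ne h' with h1 | h1
  · rw [if_pos h1, if_neg (not_lt.2 h1.le)]
  · rw [if_pos h1, if_neg (not_lt.2 h1.le), neg_neg]

theorem eps_sq (o o' : O) : eps o o' * eps o o' = 1 := by
  unfold eps; split_ifs <;> simp

theorem sgn_insert (o : O) {o' : O} {S : Finset O} (h : o' ∉ S) :
    sgn o (insert o' S) = eps o' o * sgn o S := by
  unfold sgn eps
  rw [filter_insert]
  split_ifs with h1
  · rw [card_insert_of_notMem (fun h2 => h (mem_filter.1 h2).1), pow_succ]; ring
  · rw [one_mul]

theorem sgn_erase (o : O) {o' : O} {S : Finset O} (h : o' ∈ S) :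
    sgn o (S.erase o') = eps o' o * sgn o S := by
  have := sgn_insert o (notMem_erase o' S)
  rw [insert_erase h] at this
  rw [this, ← mul_assoc, eps_sq, one_mul]

theorem sgn_sq (o : O) (S : Finset O) : sgn o S * sgn o S = 1 := by
  unfold sgn
  rw [← mul_pow]; simp

theorem wedge_apply (o : O) (φ : Finset O → M) (S : Finset O) :
    wedge o φ S = if o ∈ S then sgn o S • φ (S.erase o) else 0 := by
  unfold wedge
  rw [LinearMap.pi_apply]
  split_ifs <;> simp

theorem contr_apply (o : O) (φ : Finset O → M) (S : Finset O) :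
    contr o φ S = if o ∈ S then 0 else sgn o S • φ (insert o S) := by
  unfold contr
  rw [LinearMap.pi_apply]
  split_ifs <;> simp

theorem ww (o o' : O) : (wedge o * wedge o' : Module.End ℂ (Finset O → M)) =
    -(wedge o' * wedge o) := by
  refine LinearMap.ext fun φ => funext fun S => ?_
  simp only [Module.End.mul_apply, LinearMap.neg_apply, Pi.neg_apply, wedge_apply, mem_erase]
  by_cases e : o = o'
  · subst e; simp
  have e' : o' ≠ o := fun h => e h.symm
  by_cases h : o ∈ S <;> by_cases h' : o' ∈ S <;> simp [h, h', e, e']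
  rw [sgn_erase _ h, sgn_erase _ h', eps_swap e, erase_right_comm, smul_smul, smul_smul,
    ← neg_smul]
  congr 1; ring

theorem cc (o o' : O) : (contr o * contr o' : Module.End ℂ (Finset O → M)) =
    -(contr o' * contr o) := by
  refine LinearMap.ext fun φ => funext fun S => ?_
  simp only [Module.End.mul_apply, LinearMap.neg_apply, Pi.neg_apply, contr_apply, mem_insert]
  by_cases e : o = o'
  · subst e; simp
  have e' : o' ≠ o := fun h => e h.symm
  by_cases h : o ∈ S <;> by_cases h' : o' ∈ S <;> simp [h, h', e, e']
  rw [sgn_insert _ h, sgn_insert _ h', eps_swap e, insert_comm, smul_smul, smul_smul,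
    ← neg_smul]
  congr 1; ring

theorem cw (o o' : O) : (contr o * wedge o' : Module.End ℂ (Finset O → M)) =
    (if o = o' then 1 else 0) - wedge o' * contr o := by
  refine LinearMap.ext fun φ => funext fun S => ?_
  simp only [Module.End.mul_apply, LinearMap.sub_apply, Pi.sub_apply, contr_apply, wedge_apply,
    mem_insert, mem_erase]
  by_cases e : o = o'
  · subst e
    by_cases h : o ∈ S
    · simp [h, sgn_erase _ h, eps_self, smul_smul, sgn_sq]
    · simp [h, sgn_insert _ h, eps_self, smul_smul, sgn_sq]
  have e' : o' ≠ o := fun h => e h.symm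
  by_cases h : o ∈ S <;> by_cases h' : o' ∈ S <;> simp [h, h', e, e']
  rw [sgn_insert _ h, sgn_erase _ h', eps_swap e, erase_insert_of_ne e, smul_smul, smul_smul,
    ← neg_smul]
  congr 1; ring

end Pool.Agent.MP_8be872_ag.H42
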