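import Pool.Agent.MP_8be872_ag.H42.Theta

/-! Homogeneous subspaces of graded spaces. -/

namespace Pool.Agent.MP_8be872_ag.H42

open Finset H38 H56

set_option linter.unusedSectionVars false

variable {O M : Type} [Fintype O] [DecidableEq O] [AddCommGroup M] [Module ℂ M]

def Hom (W : G → Submodule ℂ M) (Z : Submodule ℂ M) : Prop := Z ≤ ⨆ γ, Z ⊓ W γ

variable {W : G → Submodule ℂ M}

theorem Hom.sup {Z Y : Submodule ℂ M} (hZ : Hom W Z) (hY : Hom W Y) : Hom W (Z ⊔ Y) :=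
  sup_le (le_trans hZ (iSup_mono fun _ => inf_le_inf_right _ le_sup_left))
    (le_trans hY (iSup_mono fun _ => inf_le_inf_right _ le_sup_right))

theorem Hom.map {Z : Submodule ℂ M} (hZ : Hom W Z) {T : M →ₗ[ℂ] M}
    (hT : ∀ γ, ∀ m ∈ W γ, T m ∈ W γ) : Hom W (Z.map T) := by
  refine le_trans (Submodule.map_mono hZ) ?_
  rw [Submodule.map_iSup]
  refine iSup_mono fun γ => ?_
  rintro _ ⟨m, ⟨h1, h2⟩, rfl⟩
  exact ⟨⟨m, h1, rfl⟩, hT γ m h2⟩

theorem hom_top (h : ⨆ γ, W γ = ⊤) : Hom W ⊤ := by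
  unfold Hom
  simp [h]

theorem hom_bot : Hom W ⊥ := bot_le

theorem exists_proj (htop : ⨆ γ, W γ = ⊤) (hind : iSupIndep W) :
    ∃ π : G → M →ₗ[ℂ] M, (∀ γ m, π γ m ∈ W γ) ∧ (∀ γ, ∀ m ∈ W γ, π γ m = m) ∧
      (∀ γ γ', γ' ≠ γ → ∀ m ∈ W γ', π γ m = 0) ∧ ∀ m, ∃ s : Finset G, m = ∑ γ ∈ s, π γ m := by
  classical
  have h := DirectSum.isInternal_submodule_of_iSupIndep_of_iSup_eq_top hind htop
  let _ := h.chooseDecomposition
  refine ⟨fun γ => (W γ).subtype ∘ₗ DirectSum.component ℂ G (fun γ => W γ) γ ∘ₗ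
    (DirectSum.decomposeLinearEquiv W).toLinearMap, fun γ m => Subtype.prop _, ?_, ?_, ?_⟩
  · intro γ m hm
    exact DirectSum.decompose_of_mem_same W hm
  · intro γ γ' hne m hm
    exact DirectSum.decompose_of_mem_ne W hm hne
  · intro m
    exact ⟨_, (DirectSum.sum_support_decompose W m).symm⟩

theorem hom_iff {π : G → M →ₗ[ℂ] M} (h1 : ∀ γ m, π γ m ∈ W γ) (h2 : ∀ γ, ∀ m ∈ W γ, π γ m = m)
    (h3 : ∀ γ γ', γ' ≠ γ → ∀ m ∈ W γ', π γ m = 0)
    (h4 : ∀ m, ∃ s : Finset G, m = ∑ γ ∈ s, π γ m) (Z : Submodule ℂ M) :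
    Hom W Z ↔ ∀ γ, ∀ z ∈ Z, π γ z ∈ Z := by
  constructor
  · intro h γ z hz
    refine Submodule.iSup_induction (motive := fun z => π γ z ∈ Z) _ (h hz) ?_ ?_ ?_
    · rintro γ' m ⟨hm, hm'⟩
      by_cases e : γ' = γ
      · subst e; rwa [h2 _ _ hm']
      · rw [h3 _ _ e _ hm']; exact Z.zero_mem
    · simp
    · intro a b ha hb
      rw [map_add]; exact Z.add_mem ha hb
  · intro h z hz
    obtain ⟨s, hs⟩ := h4 z
    rw [hs]
    exact sum_mem fun γ _ => Submodule.mem_iSup_of_mem γ ⟨h γ z hz, h1 γ z⟩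

theorem Hom.inf (htop : ⨆ γ, W γ = ⊤) (hind : iSupIndep W) {Z Y : Submodule ℂ M} (hZ : Hom W Z)
    (hY : Hom W Y) : Hom W (Z ⊓ Y) := by
  obtain ⟨π, h1, h2, h3, h4⟩ := exists_proj htop hind
  rw [hom_iff h1 h2 h3 h4] at hZ hY ⊢
  exact fun γ z hz => ⟨hZ γ z hz.1, hY γ z hz.2⟩

theorem Hom.comap (htop : ⨆ γ, W γ = ⊤) (hind : iSupIndep W) {Y : Submodule ℂ M}
    (hY : Hom W Y) {T : M →ₗ[ℂ] M} (hT : ∀ γ, ∀ m ∈ W γ, T m ∈ W γ) : Hom W (Y.comap T) := by
  obtain ⟨π, h1, h2, h3, h4⟩ := exists_proj htop hind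
  rw [hom_iff h1 h2 h3 h4] at hY ⊢
  intro γ z hz
  have key : T (π γ z) = π γ (T z) := by
    have hz' : z ∈ ⨆ γ, W γ := by rw [htop]; trivial
    refine Submodule.iSup_induction (motive := fun z => T (π γ z) = π γ (T z)) _ hz' ?_ ?_ ?_
    · intro γ' m hm
      by_cases e : γ' = γ
      · subst e; rw [h2 _ _ hm, h2 _ _ (hT _ _ hm)]
      · rw [h3 _ _ e _ hm, h3 _ _ e _ (hT _ _ hm), map_zero]
    · simp
    · intro a b ha hb
      simp only [map_add, ha, hb]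
  rw [Submodule.mem_comap, key]
  exact hY γ _ hz

theorem mem_freeW {c : O → G} {γ : G} {φ : O → M} :
    φ ∈ freeW c W γ ↔ ∀ o, φ o ∈ W (γ - c o) := by
  simp [freeW, Submodule.mem_pi]

theorem hom_pi (c : O → G) {Z : O → Submodule ℂ M} (hZ : ∀ o, Hom W (Z o)) :
    Hom (freeW c W) (Submodule.pi Set.univ Z) := by
  intro φ hφ
  rw [← Finset.univ_sum_single φ]
  refine sum_mem fun o _ => ?_
  have h := hZ o (hφ o trivial)
  refine Submodule.iSup_induction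
    (motive := fun m => Pi.single o m ∈ ⨆ γ, Submodule.pi Set.univ Z ⊓ freeW c W γ) _ h ?_ ?_ ?_
  · rintro γ m ⟨hm, hm'⟩
    refine Submodule.mem_iSup_of_mem (γ + c o) ⟨fun o' _ => ?_, mem_freeW.2 fun o' => ?_⟩
    · by_cases e : o' = o
      · subst e; simpa using hm
      · simp [e]
    · by_cases e : o' = o
      · subst e; simpa using hm'
      · simp [e]
  · simp
  · intro a b ha hb
    rw [Pi.single_add]; exact Submodule.add_mem _ ha hb

theorem free_top (c : O → G) (htop : ⨆ γ, W γ = ⊤) : ⨆ γ, freeW c W γ = ⊤ := by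
  have h := hom_pi (W := W) c (Z := fun _ => ⊤) fun _ => hom_top htop
  unfold Hom at h
  rw [Submodule.pi_top] at h
  simpa using h

theorem free_indep (c : O → G) (hind : iSupIndep W) : iSupIndep (freeW c W) := by
  rw [iSupIndep_def] at hind ⊢
  intro γ
  rw [Submodule.disjoint_def]
  intro φ h1 h2
  funext o
  refine Submodule.disjoint_def.1 (hind (γ - c o)) _ (mem_freeW.1 h1 o) ?_
  have : (⨆ j, ⨆ (_ : j ≠ γ), freeW c W j) ≤
      (⨆ j, ⨆ (_ : j ≠ γ - c o), W j).comap (LinearMap.proj o) := by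
    refine iSup₂_le fun j hj ψ hψ => ?_
    refine Submodule.mem_iSup_of_mem (j - c o) (Submodule.mem_iSup_of_mem ?_ (mem_freeW.1 hψ o))
    exact fun e => hj (sub_left_injective e)
  exact this h2

theorem hom_extOf (c : Finset O → G) {Z : Submodule ℂ M} (hZ : Hom W Z) :
    Hom (freeW c W) (extOf O Z) := hom_pi c fun _ => hZ

theorem hom_par (c : Finset O → G) (htop : ⨆ γ, W γ = ⊤) (p : Bool) :
    Hom (freeW c W) (par O M p) := by
  have e : par O M p = Submodule.pi Set.univ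
      fun S : Finset O => if decide (Odd S.card) ≠ p then (⊥ : Submodule ℂ M) else ⊤ := by
    ext φ
    rw [mem_par, Submodule.mem_pi]
    refine forall_congr' fun S => ?_
    split_ifs with h <;> simp [h]
  rw [e]
  refine hom_pi c fun S => ?_
  split_ifs
  exacts [hom_bot, hom_top htop]

theorem hom_span {P : Type} [CommRing P] [Algebra ℂ P] {W : G → Submodule ℂ P}
    (htop : ⨆ γ, W γ = ⊤) (hmul : ∀ α β, ∀ a ∈ W α, ∀ b ∈ W β, a * b ∈ W (α + β))
    {s : Set P} (hs : ∀ a ∈ s, ∃ γ, a ∈ W γ) : Hom W ((Ideal.span s).restrictScalars ℂ) := by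
  intro z hz
  refine Submodule.span_induction (p := fun z _ =>
    z ∈ ⨆ γ, (Ideal.span s).restrictScalars ℂ ⊓ W γ) ?_ ?_ ?_ ?_ hz
  · intro a ha
    obtain ⟨γ, h⟩ := hs a ha
    exact Submodule.mem_iSup_of_mem γ ⟨Ideal.subset_span ha, h⟩
  · exact Submodule.zero_mem _
  · intro a b _ _ ha hb
    exact Submodule.add_mem _ ha hb
  · intro a z _ hz
    have ha : a ∈ ⨆ γ, W γ := by rw [htop]; trivial
    refine Submodule.iSup_induction (motive := fun a =>
      a • z ∈ ⨆ γ, (Ideal.span s).restrictScalars ℂ ⊓ W γ) _ ha ?_ ?_ ?_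
    · intro α a ha
      refine Submodule.iSup_induction (motive := fun z =>
        a • z ∈ ⨆ γ, (Ideal.span s).restrictScalars ℂ ⊓ W γ) _ hz ?_ ?_ ?_
      · rintro β z ⟨h1, h2⟩
        exact Submodule.mem_iSup_of_mem (α + β) ⟨Ideal.mul_mem_left _ a h1, hmul _ _ _ ha _ h2⟩
      · simp
      · intro y y' hy hy'
        rw [smul_add]; exact Submodule.add_mem _ hy hy'
    · simp
    · intro y y' hy hy'
      rw [add_smul]; exact Submodule.add_mem _ hy hy'

end Pool.Agent.MP_8be872_ag.H42
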