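import Pool.Agent.MP_8be872_ag.H42.Sub

/-! The Koszul complex of the moment map as a graded representation. -/

namespace Pool.Agent.MP_8be872_ag.H42

open Finset H38 H56

set_option linter.unusedSectionVars false

section A

variable {A V W : Type} [Fintype A] [Fintype V] [Fintype W] [DecidableEq A] [DecidableEq V]
  [DecidableEq W]

theorem act0_mat (r : V × V) (ε : A) (p q : V ⊕ W) :
    act0 r (mat0 ε p q) = (if q = Sum.inl r.2 then mat0 ε p (Sum.inl r.1) else 0) -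
      if p = Sum.inl r.1 then mat0 ε (Sum.inl r.2) q else 0 := by
  unfold act0
  exact MvPolynomial.mkDerivation_X _ _ _

theorem act0_mul (r : V × V) (ε ε' : A) (p q : V ⊕ W) :
    act0 r ((mat0 ε * mat0 ε' : Matrix (V ⊕ W) (V ⊕ W) (Pol0 A V W)) p q) =
      (if q = Sum.inl r.2 then (mat0 ε * mat0 ε' : Matrix _ _ (Pol0 A V W)) p (Sum.inl r.1) else 0) -
      if p = Sum.inl r.1 then (mat0 ε * mat0 ε' : Matrix _ _ (Pol0 A V W)) (Sum.inl r.2) q
        else 0 := by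
  simp only [Matrix.mul_apply, map_sum, Derivation.leibniz, act0_mat, smul_eq_mul, mul_sub,
    mul_ite, mul_zero, sum_add_distrib, sum_sub_distrib, sum_ite_eq', mem_univ, if_true,
    sum_ite_irrel, sum_const_zero]
  simp only [mul_comm (mat0 ε' _ _)]
  ring

theorem mul_wt (x : V ⊕ W → G) (t : A → G) (ε ε' : A) (p q : V ⊕ W) :
    (mat0 ε * mat0 ε' : Matrix (V ⊕ W) (V ⊕ W) (Pol0 A V W)) p q ∈
      polW0 x t (-(t ε + t ε') - (x p - x q)) := by
  rw [Matrix.mul_apply]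
  refine sum_mem fun s _ => ?_
  have := (MvPolynomial.isWeightedHomogeneous_X ℂ (fun c => polWt x t 0 (some c)) (ε, p, s)).mul
    (MvPolynomial.isWeightedHomogeneous_X ℂ (fun c => polWt x t 0 (some c)) (ε', s, q))
  have e : polWt x t 0 (some (ε, p, s)) + polWt x t 0 (some (ε', s, q)) =
      -(t ε + t ε') - (x p - x q) := by
    simp only [polWt]; abel
  rw [e] at this
  exact this

end A

variable (Q : Quiv) (w v : Fin Q.n → ℕ) (d : Fin Q.n → ℕ → ℤ)

theorem allowed_le (ε : Arr Q) (p q : Bas Q v ⊕ Bas Q w) (h : allowed Q w v d (ε, p, q)) :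
    Sum.elim (fun a : Bas Q v => d a.1 a.2) (fun _ => 0) q ≤
      Sum.elim (fun a : Bas Q v => d a.1 a.2) (fun _ => 0) p := by
  rcases ε with ⟨_ | e, _ | _⟩ <;> rcases p with p | p <;> rcases q with q | q <;>
    simp only [allowed] at h <;> simp only [Sum.elim_inl, Sum.elim_inr] <;> tauto

variable {Q v d} in
theorem root_le (hd : Incr Q v d) {r : Bas Q v × Bas Q v} (h : RootP Q v r) :
    r.1.1 = r.2.1 ∧ d r.2.1 r.2.2 ≤ d r.1.1 r.1.2 := by
  refine ⟨h.1, ?_⟩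
  have := hd r.1.1 r.1.2 r.1.2.2 r.2.2 h.2
  exact (congrArg (fun i => d i (r.2.2 : ℕ)) h.1).symm.le.trans this

theorem allowed_right {a b : Bas Q v} (h1 : a.1 = b.1) (h2 : d b.1 b.2 ≤ d a.1 a.2) (ε : Arr Q)
    (p : Bas Q v ⊕ Bas Q w) (h : allowed Q w v d (ε, p, .inl a)) :
    allowed Q w v d (ε, p, .inl b) := by
  rcases ε with ⟨_ | e, _ | _⟩ <;> rcases p with p | p <;> simp only [allowed] at h ⊢
  · exact ⟨h.1.trans h1, h2.trans h.2⟩
  · exact ⟨h.1, h1 ▸ h.2.1, h2.trans h.2.2⟩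
  · exact ⟨h.1, h1 ▸ h.2.1, h2.trans h.2.2⟩

theorem allowed_left {a b : Bas Q v} (h1 : a.1 = b.1) (h2 : d b.1 b.2 ≤ d a.1 a.2) (ε : Arr Q)
    (q : Bas Q v ⊕ Bas Q w) (h : allowed Q w v d (ε, .inl b, q)) :
    allowed Q w v d (ε, .inl a, q) := by
  rcases ε with ⟨_ | e, _ | _⟩ <;> rcases q with q | q <;> simp only [allowed] at h ⊢
  · exact ⟨h1.trans h.1, h.2.trans h2⟩
  · exact ⟨h1.trans h.1, h.2.1, h.2.2.trans h2⟩
  · exact ⟨h1.trans h.1, h.2.1, h.2.2.trans h2⟩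

theorem mat_mem {ε : Arr Q} {p q : Bas Q v ⊕ Bas Q w} (h : ¬ allowed Q w v d (ε, p, q)) :
    mat0 ε p q ∈ lin0 Q w v d := Ideal.subset_span ⟨_, h, rfl⟩

theorem lin_stab (hd : Incr Q v d) (r : Bas Q v × Bas Q v) (hr : RootP Q v r) :
    ∀ m ∈ lin0 Q w v d, act0 r m ∈ lin0 Q w v d := by
  intro m hm
  obtain ⟨h1, h2⟩ := root_le hd hr
  refine Submodule.span_induction (p := fun m _ => act0 r m ∈ lin0 Q w v d) ?_ ?_ ?_ ?_ hm
  · rintro _ ⟨⟨ε, p, q⟩, hc, rfl⟩
    have := act0_mat r ε p q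
    unfold mat0 at this
    rw [this]
    refine Ideal.sub_mem _ ?_ ?_
    · split_ifs with e
      · subst e
        exact mat_mem Q w v d fun h => hc (allowed_right Q w v d h1 h2 _ _ h)
      · exact Ideal.zero_mem _
    · split_ifs with e
      · subst e
        exact mat_mem Q w v d fun h => hc (allowed_left Q w v d h1 h2 _ _ h)
      · exact Ideal.zero_mem _
  · simp
  · intro a b _ _ ha hb
    rw [map_add]; exact Ideal.add_mem _ ha hb
  · intro a b hb hb'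
    rw [smul_eq_mul, Derivation.leibniz, smul_eq_mul, smul_eq_mul]
    exact Ideal.add_mem _ (Ideal.mul_mem_left _ _ hb') (Ideal.mul_mem_right _ _ hb)

theorem mul_mem {a b : Bas Q v} (h : ¬ d b.1 b.2 ≤ d a.1 a.2) (ε ε' : Arr Q) :
    (mat0 ε * mat0 ε' : Matrix (Bas Q v ⊕ Bas Q w) (Bas Q v ⊕ Bas Q w) _) (.inl a) (.inl b) ∈
      lin0 Q w v d := by
  rw [Matrix.mul_apply]
  refine sum_mem fun s _ => ?_
  by_cases h1 : allowed Q w v d (ε, .inl a, s)
  · refine Ideal.mul_mem_left _ _ (mat_mem Q w v d fun h2 => h ?_)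
    exact (allowed_le Q w v d _ _ _ h2).trans (allowed_le Q w v d _ _ _ h1)
  · exact Ideal.mul_mem_right _ _ (mat_mem Q w v d h1)

theorem mom_mem {β : Bas Q v × Bas Q v} (h : ¬ d β.2.1 β.2.2 ≤ d β.1.1 β.1.2) :
    mom0 Q w v β ∈ lin0 Q w v d := by
  unfold mom0
  refine sum_mem fun o _ => ?_
  rw [Matrix.sub_apply]
  exact Ideal.sub_mem _ (mul_mem Q w v d h _ _) (mul_mem Q w v d h _ _)

theorem act_mom (r β : Bas Q v × Bas Q v) :
    act0 r (mom0 Q w v β) = ∑ β', co r β β' • mom0 Q w v β' := by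
  rw [sum_co]
  unfold mom0
  simp only [Matrix.sub_apply, map_sum, map_sub, act0_mul, Sum.inl.injEq]
  split_ifs <;> simp only [sum_sub_distrib, sub_zero, zero_sub, sum_neg_distrib, sum_const_zero] <;>
    ring

theorem mom_wt (β : Bas Q v × Bas Q v) :
    mom0 Q w v β ∈ polW0 (basWt Q w v) (arrWt Q) (hb - (xV β.1.1 β.1.2 - xV β.2.1 β.2.2)) := by
  unfold mom0
  refine sum_mem fun o _ => ?_
  have e : -(arrWt Q (o, true) + arrWt Q (o, false)) = hb := by
    cases o <;> simp only [arrWt, hb] <;> abel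
  have h1 := mul_wt (basWt Q w v) (arrWt Q) (o, true) (o, false) (.inl β.1) (.inl β.2)
  have h2 := mul_wt (basWt Q w v) (arrWt Q) (o, false) (o, true) (.inl β.1) (.inl β.2)
  rw [add_comm] at h2
  rw [e] at h1 h2
  rw [Matrix.sub_apply]
  exact Submodule.sub_mem _ h1 h2

theorem emb_mom : mom Q w v = fun r => emb (mom0 Q w v r) := by
  funext r
  simp [mom, mom0, Matrix.mul_apply, mat, mat0, emb]

theorem chart_eq (f : Pol0 (Arr Q) (Bas Q v) (Bas Q w)) : chart Q w v d (emb f) =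
    (lin0 Q w v d).map emb ⊔ Ideal.span {emb f * MvPolynomial.X none - 1} := by
  unfold chart lin0
  rw [Ideal.span_union, sup_comm, Ideal.map_span]
  congr 2
  ext g
  constructor
  · rintro ⟨c, hc, rfl⟩
    exact ⟨_, ⟨c, hc, rfl⟩, by simp [emb]⟩
  · rintro ⟨_, ⟨c, hc, rfl⟩, rfl⟩
    exact ⟨c, hc, by simp [emb]⟩

theorem kos : RepStmt → FracStmt → KosStmt := by
  intro hR hF Q w v d hd
  obtain ⟨h0, h1, -⟩ := hR (Arr Q) (Bas Q v) (Bas Q w) (RootP Q v) (basWt Q w v) (arrWt Q)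
  have hL : ∀ r, RootP Q v r → (∀ p, RelP Q v d (p, r.1) → RelP Q v d (p, r.2)) ∧
      ∀ q, RelP Q v d (r.2, q) → RelP Q v d (r.1, q) := by
    intro r hr
    obtain ⟨e1, e2⟩ := root_le hd hr
    exact ⟨fun p h => ⟨h.1.trans e1, e2.trans h.2⟩, fun q h => ⟨e1.trans h.1, h.2.trans e2⟩⟩
  have hmul : ∀ α β, ∀ a ∈ polW0 (basWt Q w v) (arrWt Q) α, ∀ b ∈ polW0 (basWt Q w v) (arrWt Q) β,
      a * b ∈ polW0 (basWt Q w v) (arrWt Q) (α + β) :=
    fun α β a ha b hb => MvPolynomial.IsWeightedHomogeneous.mul ha hb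
  have hI : IsSub (RootP Q v) (polW0 (basWt Q w v) (arrWt Q)) (fun r => (act0 r).toLinearMap)
      ((lin0 Q w v d).restrictScalars ℂ) := by
    refine ⟨hom_span h0.top hmul ?_, lin_stab Q w v d hd⟩
    rintro _ ⟨c, -, rfl⟩
    exact ⟨_, MvPolynomial.isWeightedHomogeneous_X ℂ _ c⟩
  have hδ : ∀ r, RootP Q v r → ∀ β : Subtype (RelP Q v d), act0 r (mom0 Q w v β) -
      ∑ β' : Subtype (RelP Q v d), co r β β' • mom0 Q w v β' ∈ lin0 Q w v d := by
    intro r hr β
    rw [act_mom, ← Fintype.sum_subtype_add_sum_subtype (RelP Q v d), add_sub_cancel_left]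
    refine sum_mem fun β' _ => ?_
    by_cases e : co r β β' = 0
    · rw [e, zero_smul]; exact Ideal.zero_mem _
    · refine Submodule.smul_of_tower_mem _ _ (mom_mem Q w v d fun h => β'.2 ⟨?_, h⟩)
      rcases co_ne e with ⟨e1, e2⟩ | ⟨e1, e2⟩
      · rw [e2]; exact β.2.1.trans ((congrArg Sigma.fst e1).trans hr.1.symm)
      · rw [e2]; exact hr.1.symm.trans ((congrArg Sigma.fst e1).symm.trans β.2.1)
  refine ⟨fun r => kap fun β β' : Subtype (RelP Q v d) => co r β β',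
    fun p => toP _ (kosZ_smul (mom0 Q w v) (lin0 Q w v d) p),
    fun p => toP _ (kosB_smul (mom0 Q w v) (lin0 Q w v d) p), actKos_free _, actKos_free _,
    ?_, fun φ => ?_, fun p => ?_⟩
  · rw [← actKos_free]
    exact rep_kos h0 hL hb
  · rw [← actKos_free]
    exact rep_kos (h1 φ) hL hb
  · have hs := sub_kos (R := RootP Q v) (c := relWt Q v d) h0.top h0.indep hmul
      (fun β => mom_wt Q w v β) hI hδ p
    rw [← actKos_free]
    refine ⟨rfl, rfl, kosB_le _ _ _, hs.1, hs.2, fun z hz => ⟨fun a ha => ?_, fun r hr => ?_⟩,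
      fun f => ?_⟩
    · exact ext_le_kosB _ _ _ (smul_ext ha z)
    · by_cases h : RelP Q v d r
      · exact mom_kill (mom0 Q w v) _ p ⟨r, h⟩ z hz
      · exact ext_le_kosB _ _ _ (smul_ext (mom_mem Q w v d fun h' => h ⟨hr, h'⟩) z)
    · rw [chart_eq, emb_mom]
      exact loc_kos hF _ _ f p

end Pool.Agent.MP_8be872_ag.H42
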