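import Pool.Agent.MP_8be872_ag.H42.Abs

/-! Koszul cycles and boundaries: stability, homogeneity, localization. -/

namespace Pool.Agent.MP_8be872_ag.H42

open Finset H38 H56

set_option linter.unusedSectionVars false

section A

variable {V P : Type} [Fintype V] [DecidableEq V] [CommRing P] [Algebra ℂ P]
  {L : V × V → Prop} [DecidablePred L]

def toP {O : Type} (N : Submodule ℂ (O → P)) (h : ∀ (a : P), ∀ z ∈ N, a • z ∈ N) :
    Submodule P (O → P) where
  carrier := N
  add_mem' := N.add_mem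
  zero_mem' := N.zero_mem
  smul_mem' a z hz := h a z hz

theorem mem_kosZ {μ : V × V → P} {I : Ideal P} {p : Bool} {z : Finset (Subtype L) → P} :
    z ∈ kosZ L μ I p ↔ (∃ y ∈ par _ P p, z - y ∈ extOf _ (I.restrictScalars ℂ)) ∧
      dKos L μ z ∈ extOf _ (I.restrictScalars ℂ) := by
  unfold kosZ
  rw [Submodule.mem_inf, Submodule.mem_comap, Submodule.mem_sup]
  refine and_congr_left fun _ => ⟨?_, ?_⟩
  · rintro ⟨y, hy, i, hi, rfl⟩
    exact ⟨y, hy, by rwa [add_sub_cancel_left]⟩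
  · rintro ⟨y, hy, h⟩
    exact ⟨y, hy, _, h, add_sub_cancel _ _⟩

theorem mem_kosB {μ : V × V → P} {I : Ideal P} {p : Bool} {z : Finset (Subtype L) → P} :
    z ∈ kosB L μ I p ↔ ∃ y ∈ par _ P (!p), z - dKos L μ y ∈ extOf _ (I.restrictScalars ℂ) := by
  unfold kosB
  rw [Submodule.mem_sup]
  constructor
  · rintro ⟨_, ⟨y, hy, rfl⟩, i, hi, rfl⟩
    exact ⟨y, hy, by rwa [add_sub_cancel_left]⟩
  · rintro ⟨y, hy, h⟩
    exact ⟨_, ⟨y, hy, rfl⟩, _, h, add_sub_cancel _ _⟩

theorem kosZ_smul (μ : V × V → P) (I : Ideal P) (p : Bool) (a : P) :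
    ∀ z ∈ kosZ L μ I p, a • z ∈ kosZ L μ I p := by
  intro z hz
  rw [mem_kosZ] at hz ⊢
  obtain ⟨⟨y, hy, h1⟩, h2⟩ := hz
  refine ⟨⟨a • y, par_smul a hy, ?_⟩, ?_⟩
  · rw [← smul_sub]; exact ext_smul a h1
  · rw [d_smul]; exact ext_smul a h2

theorem kosB_smul (μ : V × V → P) (I : Ideal P) (p : Bool) (a : P) :
    ∀ z ∈ kosB L μ I p, a • z ∈ kosB L μ I p := by
  intro z hz
  rw [mem_kosB] at hz ⊢
  obtain ⟨y, hy, h1⟩ := hz
  refine ⟨a • y, par_smul a hy, ?_⟩
  rw [d_smul, ← smul_sub]; exact ext_smul a h1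

theorem ext_le_kosB (μ : V × V → P) (I : Ideal P) (p : Bool) :
    extOf _ (I.restrictScalars ℂ) ≤ kosB L μ I p := le_sup_right

theorem kosB_le (μ : V × V → P) (I : Ideal P) (p : Bool) : kosB L μ I p ≤ kosZ L μ I p := by
  intro z hz
  rw [mem_kosB] at hz
  obtain ⟨y, hy, h1⟩ := hz
  refine mem_kosZ.2 ⟨⟨_, by simpa using d_par μ hy, h1⟩, ?_⟩
  have := d_ext μ h1
  rwa [map_sub, d_d, sub_zero] at this

theorem mom_kill (μ : V × V → P) (I : Ideal P) (p : Bool) (β : Subtype L) :
    ∀ z ∈ kosZ L μ I p, μ β • z ∈ kosB L μ I p := by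
  intro z hz
  rw [mem_kosZ] at hz
  obtain ⟨⟨y, hy, h1⟩, h2⟩ := hz
  refine mem_kosB.2 ⟨wedge β y, wedge_par β hy, ?_⟩
  have e : μ β • z - dKos L μ (wedge β y) =
      dKos L μ (wedge β (z - y)) + wedge β (dKos L μ z) := by
    rw [← d_wedge μ β z, map_sub, map_sub]; abel
  rw [e]
  exact Submodule.add_mem _ (d_ext μ (wedge_extOf β h1)) (wedge_extOf β h2)

variable {R : V × V → Prop} [DecidablePred R] {W : G → Submodule ℂ P}
  {δ : V × V → Derivation ℂ P P} {μ : V × V → P} {I : Ideal P}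

theorem act_par (r : V × V) {p : Bool} {φ : Finset (Subtype L) → P} (h : φ ∈ par _ P p) :
    actKos L δ r φ ∈ par _ P p := by
  rw [actKos_apply]
  refine Submodule.add_mem _ (mem_par.2 fun S hS => ?_) (Th_par _ h)
  simp only [mem_par.1 h S hS, map_zero]

theorem act_ext {r : V × V} (hI : ∀ m ∈ I, δ r m ∈ I) {φ : Finset (Subtype L) → P}
    (h : φ ∈ extOf _ (I.restrictScalars ℂ)) : actKos L δ r φ ∈ extOf _ (I.restrictScalars ℂ) := by
  rw [actKos_apply]
  exact Submodule.add_mem _ (mem_extOf.2 fun S => hI _ (mem_extOf.1 h S)) (Th_extOf _ h)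

theorem sub_kos (htop : ⨆ γ, W γ = ⊤) (hind : iSupIndep W)
    (hmul : ∀ α β, ∀ a ∈ W α, ∀ b ∈ W β, a * b ∈ W (α + β)) {c : Subtype L → G}
    (hμ : ∀ β : Subtype L, μ β ∈ W (c β)) (hI : IsSub R W (fun r => (δ r).toLinearMap)
      (I.restrictScalars ℂ))
    (hδ : ∀ r, R r → ∀ β : Subtype L, δ r (μ β) - ∑ β' : Subtype L, co r β β' • μ β' ∈ I)
    (p : Bool) :
    IsSub R (freeW (fun S => ∑ β ∈ S, c β) W) (actKos L δ) (kosZ L μ I p) ∧
    IsSub R (freeW (fun S => ∑ β ∈ S, c β) W) (actKos L δ) (kosB L μ I p) := by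
  have hc : ∀ r, R r → ∀ φ : Finset (Subtype L) → P,
      actKos L δ r (dKos L μ φ) - dKos L μ (actKos L δ r φ) ∈ extOf _ (I.restrictScalars ℂ) := by
    intro r hr φ
    rw [act_d]
    exact sum_mem fun β _ => smul_ext (hδ r hr β) _
  have hE := hom_extOf (O := Subtype L) (fun S => ∑ β ∈ S, c β) hI.homog
  refine ⟨⟨?_, fun r hr z hz => ?_⟩, ⟨?_, fun r hr z hz => ?_⟩⟩
  · exact Hom.inf (free_top _ htop) (free_indep _ hind) ((hom_par _ htop p).sup hE)
      (hE.comap (free_top _ htop) (free_indep _ hind) (d_wt μ hmul hμ))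
  · rw [mem_kosZ] at hz ⊢
    obtain ⟨⟨y, hy, h1⟩, h2⟩ := hz
    refine ⟨⟨_, act_par (δ := δ) r hy, ?_⟩, ?_⟩
    · rw [← map_sub]; exact act_ext (hI.stab r hr) h1
    · have := Submodule.sub_mem _ (act_ext (hI.stab r hr) h2) (hc r hr z)
      rwa [sub_sub_cancel] at this
  · exact ((hom_par _ htop (!p)).map (d_wt μ hmul hμ)).sup hE
  · rw [mem_kosB] at hz ⊢
    obtain ⟨y, hy, h1⟩ := hz
    refine ⟨_, act_par (δ := δ) r hy, ?_⟩
    have := Submodule.add_mem _ (act_ext (hI.stab r hr) h1) (hc r hr y)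
    rwa [map_sub, sub_add_sub_cancel] at this

end A

section Loc

variable {A V W : Type} [Fintype A] [Fintype V] [Fintype W] [DecidableEq A] [DecidableEq V]
  [DecidableEq W] {L : V × V → Prop} [DecidablePred L]

theorem mem_smul_top {O P : Type} [Fintype O] [DecidableEq O] [CommRing P] (J : Ideal P)
    (y : O → P) : y ∈ J • (⊤ : Submodule P (O → P)) ↔ ∀ o, y o ∈ J := by
  constructor
  · intro h
    refine Submodule.smul_induction_on (p := fun y => ∀ o, y o ∈ J) h ?_ ?_
    · intro a ha n _ o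
      exact J.mul_mem_right _ ha
    · intro a b ha hb o
      exact J.add_mem (ha o) (hb o)
  · intro h
    rw [← Finset.univ_sum_single y]
    refine sum_mem fun o _ => ?_
    have : (Pi.single o (y o) : O → P) = y o • (Pi.single o 1 : O → P) := by
      rw [← Pi.single_smul, smul_eq_mul, mul_one]
    rw [this]
    exact Submodule.smul_mem_smul (h o) trivial

theorem emb_mem_loc {O : Type} (f : Pol0 A V W) {Z : Submodule (Pol0 A V W) (O → Pol0 A V W)}
    {z : O → Pol0 A V W} (h : z ∈ Z) : (fun o => emb (z o)) ∈ locSub f Z :=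
  Submodule.mem_sup_left (Submodule.subset_span ⟨z, h, rfl⟩)

theorem ext_mem_loc {O : Type} [Fintype O] [DecidableEq O] (f : Pol0 A V W)
    {I : Ideal (Pol0 A V W)} {Z : Submodule (Pol0 A V W) (O → Pol0 A V W)}
    (hZ : ∀ z : O → Pol0 A V W, (∀ o, z o ∈ I) → z ∈ Z) {y : O → Pol A V W}
    (hy : ∀ o, y o ∈ I.map emb ⊔ Ideal.span {emb f * MvPolynomial.X none - 1}) :
    y ∈ locSub f Z := by
  rw [← Finset.univ_sum_single y]
  refine sum_mem fun o _ => ?_
  obtain ⟨a, ha, b, hb, e⟩ := Submodule.mem_sup.1 (hy o)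
  rw [← e, Pi.single_add]
  refine Submodule.add_mem _ ?_ (Submodule.mem_sup_right ((mem_smul_top _ _).2 fun o' => ?_))
  · refine Submodule.span_induction
      (p := fun a _ => (Pi.single o a : O → Pol A V W) ∈ locSub f Z) ?_ ?_ ?_ ?_ ha
    · rintro _ ⟨i, hi, rfl⟩
      have := emb_mem_loc f (hZ (Pi.single o i) fun o' => by
        by_cases e : o' = o
        · subst e; simpa using hi
        · simp [e])
      convert this using 1
      funext o'
      by_cases e : o' = o
      · subst e; simp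
      · simp [e]
    · simp
    · intro a b _ _ ha hb
      rw [Pi.single_add]; exact Submodule.add_mem _ ha hb
    · intro a b _ hb
      rw [Pi.single_smul]; exact Submodule.smul_mem _ _ hb
  · by_cases e : o' = o
    · subst e; simpa using hb
    · simp [e]

theorem d_emb (μ : V × V → Pol0 A V W) (z : Finset (Subtype L) → Pol0 A V W) :
    dKos L (fun r => emb (μ r)) (fun S => emb (z S)) = fun S => emb (dKos L μ z S) := by
  have n : ∀ β : Subtype L, contr β (fun S => emb (z S)) = fun S => emb (contr β z S) :=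
    fun β => nat_contr (emb : Pol0 A V W →ₐ[ℂ] Pol A V W).toLinearMap β z
  funext S
  simp only [d_apply, n, Finset.sum_apply, Pi.smul_apply, smul_eq_mul, map_sum, map_mul]

theorem loc_le {O : Type} (f : Pol0 A V W) {Z : Submodule (Pol0 A V W) (O → Pol0 A V W)}
    {N : Submodule (Pol A V W) (O → Pol A V W)} (h1 : ∀ z ∈ Z, (fun o => emb (z o)) ∈ N)
    (h2 : Ideal.span {emb f * MvPolynomial.X none - 1} • ⊤ ≤ N) : locSub f Z ≤ N := by
  refine sup_le (Submodule.span_le.2 ?_) h2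
  rintro _ ⟨z, hz, rfl⟩
  exact h1 z hz

theorem loc_kos (hF : FracStmt) (μ : V × V → Pol0 A V W) (I : Ideal (Pol0 A V W))
    (f : Pol0 A V W) (p : Bool) :
    (locSub f (toP _ (kosZ_smul (L := L) μ I p))).restrictScalars ℂ =
      kosZ L (fun r => emb (μ r)) (I.map emb ⊔ Ideal.span {emb f * MvPolynomial.X none - 1}) p ∧
    (locSub f (toP _ (kosB_smul (L := L) μ I p))).restrictScalars ℂ =
      kosB L (fun r => emb (μ r)) (I.map emb ⊔ Ideal.span {emb f * MvPolynomial.X none - 1}) p := by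
  set I' : Ideal (Pol A V W) := I.map emb ⊔ Ideal.span {emb f * MvPolynomial.X none - 1} with hI'
  have hp : ∀ q, ∀ z ∈ par (Subtype L) (Pol0 A V W) q,
      (fun S => emb (z S)) ∈ par (Subtype L) (Pol A V W) q := by
    intro q z hz
    exact mem_par.2 fun S hS => by rw [mem_par.1 hz S hS, map_zero]
  have he : ∀ z ∈ extOf (Subtype L) (I.restrictScalars ℂ),
      (fun S => emb (z S)) ∈ extOf (Subtype L) (I'.restrictScalars ℂ) := by
    intro z hz
    exact mem_extOf.2 fun S => Ideal.mem_sup_left (Ideal.mem_map_of_mem _ (mem_extOf.1 hz S))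
  have hs : ∀ y ∈ Ideal.span {emb f * MvPolynomial.X none - 1} •
      (⊤ : Submodule (Pol A V W) (Finset (Subtype L) → Pol A V W)),
      y ∈ extOf (Subtype L) (I'.restrictScalars ℂ) := by
    intro y hy
    exact mem_extOf.2 fun S => Ideal.mem_sup_right ((mem_smul_top _ _).1 hy S)
  have hsub : ∀ y z : Finset (Subtype L) → Pol0 A V W,
      (fun S => emb ((y - z) S)) = (fun S => emb (y S)) - fun S => emb (z S) := by
    intro y z; funext S; simp
  have hB : ∀ y ∈ extOf (Subtype L) (I'.restrictScalars ℂ),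
      y ∈ locSub f (toP _ (kosB_smul (L := L) μ I p)) := fun y hy =>
    ext_mem_loc f (fun z hz => ext_le_kosB μ I p (mem_extOf.2 hz)) (mem_extOf.1 hy)
  have hZ : ∀ y ∈ extOf (Subtype L) (I'.restrictScalars ℂ),
      y ∈ locSub f (toP _ (kosZ_smul (L := L) μ I p)) := fun y hy =>
    ext_mem_loc f (fun z hz => kosB_le μ I p (ext_le_kosB μ I p (mem_extOf.2 hz))) (mem_extOf.1 hy)
  have hfr : ∀ q, ∀ y ∈ par (Subtype L) (Pol A V W) q, ∃ m : ℕ,
      ∃ a ∈ par (Subtype L) (Pol0 A V W) q,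
      (y - (MvPolynomial.X none : Pol A V W) ^ m • fun S => emb (a S)) ∈
        extOf (Subtype L) (I'.restrictScalars ℂ) := by
    intro q y hy
    obtain ⟨m, a, ha⟩ := (hF A V W (Finset (Subtype L)) f).1 y
    refine ⟨m, fun S => if decide (Odd S.card) ≠ q then 0 else a S,
      mem_par.2 fun S hS => if_pos hS, mem_extOf.2 fun S => ?_⟩
    by_cases hS : decide (Odd S.card) ≠ q
    · simp only [Pi.sub_apply, Pi.smul_apply, if_pos hS, mem_par.1 hy S hS, map_zero, smul_zero,
        sub_zero]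
      exact Submodule.zero_mem _
    · have := mem_extOf.1 (hs _ ha) S
      simpa only [Pi.sub_apply, Pi.smul_apply, if_neg hS] using this
  constructor
  · apply le_antisymm
    · refine loc_le (N := toP _ (kosZ_smul (L := L) (fun r => emb (μ r)) I' p)) f ?_ ?_
      · intro z hz
        obtain ⟨⟨y, hy, h1⟩, h2⟩ := mem_kosZ.1 hz
        refine mem_kosZ.2 ⟨⟨_, hp _ _ hy, ?_⟩, ?_⟩
        · rw [← hsub]; exact he _ h1
        · rw [d_emb]; exact he _ h2
      · exact fun y hy => kosB_le _ _ _ (ext_le_kosB _ _ _ (hs y hy))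
    · intro z hz
      obtain ⟨⟨y, hy, h1⟩, h2⟩ := mem_kosZ.1 hz
      obtain ⟨m, a, ha, h3⟩ := hfr p y hy
      have h4 := Submodule.add_mem _ h1 h3
      rw [sub_add_sub_cancel] at h4
      have h5 := Submodule.sub_mem _ h2 (d_ext (fun r => emb (μ r)) h4)
      rw [map_sub, sub_sub_cancel, d_smul, d_emb] at h5
      have h6 : (fun S => emb (dKos L μ a S)) ∈ extOf (Subtype L) (I'.restrictScalars ℂ) := by
        have h7 : 1 - emb f ^ m * MvPolynomial.X none ^ m ∈ I' := by
          refine Ideal.mem_sup_right (Ideal.mem_span_singleton.2 ?_)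
          rw [← mul_pow, ← dvd_neg, neg_sub]
          exact sub_one_dvd_pow_sub_one _ _
        have := Submodule.add_mem _ (ext_smul (emb f ^ m) h5)
          (smul_ext h7 fun S => emb (dKos L μ a S))
        rwa [smul_smul, ← add_smul, add_sub_cancel, one_smul] at this
      have h8 := ext_mem_loc f (Z := toP (extOf (Subtype L) (I.restrictScalars ℂ))
        fun a z hz => ext_smul a hz) (fun z hz => mem_extOf.2 hz) (mem_extOf.1 h6)
      obtain ⟨l, hl⟩ := ((hF A V W (Finset (Subtype L)) f).2 _ _).1 h8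
      have h9 : (fun S => emb (a S)) ∈ locSub f (toP _ (kosZ_smul (L := L) μ I p)) := by
        refine ((hF A V W (Finset (Subtype L)) f).2 _ _).2
          ⟨l, mem_kosZ.2 ⟨⟨_, par_smul (f ^ l) ha, ?_⟩, ?_⟩⟩
        · rw [sub_self]; exact Submodule.zero_mem _
        · rw [d_smul]; exact hl
      have := Submodule.add_mem _ (hZ _ h4)
        (Submodule.smul_mem _ ((MvPolynomial.X none : Pol A V W) ^ m) h9)
      rwa [sub_add_cancel] at this
  · apply le_antisymm
    · refine loc_le (N := toP _ (kosB_smul (L := L) (fun r => emb (μ r)) I' p)) f ?_ ?_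
      · intro z hz
        obtain ⟨y, hy, h1⟩ := mem_kosB.1 hz
        refine mem_kosB.2 ⟨_, hp _ _ hy, ?_⟩
        rw [d_emb, ← hsub]; exact he _ h1
      · exact fun y hy => ext_le_kosB _ _ _ (hs y hy)
    · intro z hz
      obtain ⟨y, hy, h1⟩ := mem_kosB.1 hz
      obtain ⟨m, a, ha, h3⟩ := hfr _ y hy
      have h4 := Submodule.add_mem _ h1 (d_ext (fun r => emb (μ r)) h3)
      rw [map_sub, sub_add_sub_cancel, d_smul, d_emb] at h4
      have h9 : (fun S => emb (dKos L μ a S)) ∈ locSub f (toP _ (kosB_smul (L := L) μ I p)) := by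
        refine emb_mem_loc f (mem_kosB.2 ⟨a, ha, ?_⟩)
        rw [sub_self]; exact Submodule.zero_mem _
      have := Submodule.add_mem _ (hB _ h4)
        (Submodule.smul_mem _ ((MvPolynomial.X none : Pol A V W) ^ m) h9)
      rwa [sub_add_cancel] at this

end Loc

end Pool.Agent.MP_8be872_ag.H42
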