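import Pool.Agent.MP_8be872_ag.H42.Car

/-! The derivation extension of a matrix to the exterior algebra. -/

namespace Pool.Agent.MP_8be872_ag.H42

open Finset H38 H56

set_option linter.unusedSectionVars false

variable {O M M' : Type} [Fintype O] [DecidableEq O] [AddCommGroup M] [Module ℂ M]
  [AddCommGroup M'] [Module ℂ M']

variable (M) in
noncomputable def Th (a : O → O → ℂ) : Module.End ℂ (Finset O → M) :=
  ∑ β : O, ∑ β' : O, a β β' • (wedge β' ∘ₗ contr β)

section Abs

variable {E : Type} [Ring E] [Algebra ℂ E] (e i : O → E)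
  (hee : ∀ o o', e o * e o' = -(e o' * e o)) (hii : ∀ o o', i o * i o' = -(i o' * i o))
  (hie : ∀ o o', i o * e o' = (if o = o' then 1 else 0) - e o' * i o)

noncomputable def th (a : O → O → ℂ) : E := ∑ β : O, ∑ β' : O, a β β' • (e β' * i β)

include hee hie in
theorem th_e (a : O → O → ℂ) (γ : O) :
    th e i a * e γ - e γ * th e i a = ∑ β', a γ β' • e β' := by
  have n : ∀ β β', e β' * i β * e γ - e γ * (e β' * i β) = if β = γ then e β' else 0 := by
    intro β β'
    rw [mul_assoc, hie, mul_sub, ← mul_assoc (e β') (e γ), hee β' γ]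
    split_ifs <;> noncomm_ring
  simp only [th, sum_mul, mul_sum, smul_mul_assoc, mul_smul_comm, ← sum_sub_distrib,
    ← smul_sub, n]
  rw [sum_comm]
  simp

include hii hie in
theorem th_i (a : O → O → ℂ) (γ : O) :
    th e i a * i γ - i γ * th e i a = -∑ β, a β γ • i β := by
  have n : ∀ β β', e β' * i β * i γ - i γ * (e β' * i β) = -if γ = β' then i β else 0 := by
    intro β β'
    rw [mul_assoc, hii β γ, ← mul_assoc (i γ), hie]
    split_ifs <;> noncomm_ring
  simp only [th, sum_mul, mul_sum, smul_mul_assoc, mul_smul_comm, ← sum_sub_distrib,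
    ← smul_sub, n]
  simp

include hee hii hie in
theorem th_th (a b : O → O → ℂ) :
    th e i a * th e i b - th e i b * th e i a =
      th e i fun β β' => ∑ γ, b β γ * a γ β' - ∑ γ, a β γ * b γ β' := by
  have key : ∀ γ γ' : O, th e i a * (e γ' * i γ) - e γ' * i γ * th e i a =
      ∑ δ, a γ' δ • (e δ * i γ) - ∑ β, a β γ • (e γ' * i β) := by
    intro γ γ'
    have e1 := th_e e i hee hie a γ'
    have e2 := th_i e i hii hie a γ
    have : th e i a * (e γ' * i γ) - e γ' * i γ * th e i a =
        (th e i a * e γ' - e γ' * th e i a) * i γ +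
          e γ' * (th e i a * i γ - i γ * th e i a) := by noncomm_ring
    rw [this, e1, e2]
    simp only [sum_mul, mul_neg, mul_sum, smul_mul_assoc, mul_smul_comm, sub_eq_add_neg]
  have hb : th e i b = ∑ β : O, ∑ β' : O, b β β' • (e β' * i β) := rfl
  rw [hb]
  simp only [sum_mul, mul_sum, smul_mul_assoc, mul_smul_comm, ← sum_sub_distrib,
    ← smul_sub, key]
  simp only [th, sum_sub_distrib, sub_smul, smul_sub, sum_smul, smul_sum, smul_smul]
  congr 1
  · refine sum_congr rfl fun γ _ => ?_
    rw [sum_comm]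
  · rw [sum_comm]
    conv_rhs => rw [sum_comm]
    refine sum_congr rfl fun γ' _ => ?_
    rw [sum_comm]
    simp only [mul_comm]

end Abs

theorem Th_def (a : O → O → ℂ) :
    Th M a = ∑ β : O, ∑ β' : O, a β β' • (wedge β' * contr β) := rfl

theorem Th_contr (a : O → O → ℂ) (γ : O) :
    Th M a * contr γ - contr γ * Th M a = -∑ β, a β γ • contr β :=
  th_i (E := Module.End ℂ (Finset O → M)) wedge contr cc cw a γ

theorem Th_Th (a b : O → O → ℂ) :
    Th M a * Th M b - Th M b * Th M a =
      Th M fun β β' => ∑ γ, b β γ * a γ β' - ∑ γ, a β γ * b γ β' :=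
  th_th (E := Module.End ℂ (Finset O → M)) wedge contr ww cc cw a b

theorem th_sub {E : Type} [Ring E] [Algebra ℂ E] (e i : O → E) (a b : O → O → ℂ) :
    th e i (fun β β' => a β β' - b β β') = th e i a - th e i b := by
  simp only [th, sub_smul, sum_sub_distrib]

theorem Th_sub (a b : O → O → ℂ) : Th M (fun β β' => a β β' - b β β') = Th M a - Th M b :=
  th_sub (E := Module.End ℂ (Finset O → M)) wedge contr a b

theorem Th_ite (p : Prop) [Decidable p] (a : O → O → ℂ) :
    Th M (fun β β' => if p then a β β' else 0) = if p then Th M a else 0 := by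
  split_ifs
  · rfl
  · simp [Th_def]

theorem nat_wedge (f : M →ₗ[ℂ] M') (o : O) (φ : Finset O → M) :
    wedge o (fun S => f (φ S)) = fun S => f (wedge o φ S) := by
  funext S
  simp only [wedge_apply]
  split_ifs <;> simp

theorem nat_contr (f : M →ₗ[ℂ] M') (o : O) (φ : Finset O → M) :
    contr o (fun S => f (φ S)) = fun S => f (contr o φ S) := by
  funext S
  simp only [contr_apply]
  split_ifs <;> simp

theorem Th_apply (a : O → O → ℂ) (φ : Finset O → M) :
    Th M a φ = ∑ β : O, ∑ β' : O, a β β' • wedge β' (contr β φ) := by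
  simp [Th, LinearMap.sum_apply]

theorem nat_Th (f : M →ₗ[ℂ] M') (a : O → O → ℂ) (φ : Finset O → M) :
    Th M' a (fun S => f (φ S)) = fun S => f (Th M a φ S) := by
  funext S
  simp only [Th_apply, nat_contr, nat_wedge, Finset.sum_apply, Pi.smul_apply, map_sum, map_smul]

noncomputable def kap (a : O → O → ℂ) (S S' : Finset O) : ℂ := Th ℂ a (Pi.single S' 1) S

theorem Th_eq (a : O → O → ℂ) :
    Th M a = LinearMap.pi fun S => ∑ S', kap a S S' • LinearMap.proj S' := by
  refine LinearMap.ext fun φ => funext fun S => ?_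
  have e : φ = ∑ S', fun S => LinearMap.toSpanSingleton ℂ M (φ S') ((Pi.single S' 1 : _ → ℂ) S) := by
    funext S
    simp [Finset.sum_apply, Pi.single_apply]
  conv_lhs => rw [e]
  simp only [map_sum, nat_Th, Finset.sum_apply]
  simp [kap, LinearMap.sum_apply]

/-! Action on subspaces. -/

theorem mem_extOf {Z : Submodule ℂ M} {φ : Finset O → M} : φ ∈ extOf O Z ↔ ∀ S, φ S ∈ Z := by
  simp [extOf, Submodule.mem_pi]

theorem mem_par {p : Bool} {φ : Finset O → M} :
    φ ∈ par O M p ↔ ∀ S : Finset O, decide (Odd S.card) ≠ p → φ S = 0 := by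
  simp only [par, Submodule.mem_pi, Set.mem_ofPred_eq, Submodule.mem_bot]

theorem mem_extW {c : O → G} {W : G → Submodule ℂ M} {γ : G} {φ : Finset O → M} :
    φ ∈ extW c W γ ↔ ∀ S, φ S ∈ W (γ - ∑ o ∈ S, c o) := by
  simp [extW, Submodule.mem_pi]

theorem wedge_extOf {Z : Submodule ℂ M} (o : O) {φ : Finset O → M} (h : φ ∈ extOf O Z) :
    wedge o φ ∈ extOf O Z := by
  rw [mem_extOf] at h ⊢
  intro S
  rw [wedge_apply]
  split_ifs
  exacts [Z.smul_mem _ (h _), Z.zero_mem]

theorem contr_extOf {Z : Submodule ℂ M} (o : O) {φ : Finset O → M} (h : φ ∈ extOf O Z) :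
    contr o φ ∈ extOf O Z := by
  rw [mem_extOf] at h ⊢
  intro S
  rw [contr_apply]
  split_ifs
  exacts [Z.zero_mem, Z.smul_mem _ (h _)]

theorem wedge_par {p : Bool} (o : O) {φ : Finset O → M} (h : φ ∈ par O M p) :
    wedge o φ ∈ par O M (!p) := by
  rw [mem_par] at h ⊢
  intro S hS
  rw [wedge_apply]
  split_ifs with h1
  · rw [h, smul_zero]
    rw [← card_erase_add_one h1] at hS
    cases p <;> simpa [Nat.odd_add_one] using hS
  · rfl

theorem contr_par {p : Bool} (o : O) {φ : Finset O → M} (h : φ ∈ par O M p) :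
    contr o φ ∈ par O M (!p) := by
  rw [mem_par] at h ⊢
  intro S hS
  rw [contr_apply]
  split_ifs with h1
  · rfl
  · rw [h, smul_zero]
    rw [card_insert_of_notMem h1]
    cases p <;> simpa [Nat.odd_add_one] using hS

theorem wedge_extW {c : O → G} {W : G → Submodule ℂ M} {γ : G} (o : O) {φ : Finset O → M}
    (h : φ ∈ extW c W γ) : wedge o φ ∈ extW c W (γ + c o) := by
  rw [mem_extW] at h ⊢
  intro S
  rw [wedge_apply]
  split_ifs with h1
  · refine Submodule.smul_mem _ _ ?_
    have := h (S.erase o)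
    rw [← add_sum_erase S c h1]
    convert this using 2
    abel
  · exact Submodule.zero_mem _

theorem contr_extW {c : O → G} {W : G → Submodule ℂ M} {γ : G} (o : O) {φ : Finset O → M}
    (h : φ ∈ extW c W γ) : contr o φ ∈ extW c W (γ - c o) := by
  rw [mem_extW] at h ⊢
  intro S
  rw [contr_apply]
  split_ifs with h1
  · exact Submodule.zero_mem _
  · refine Submodule.smul_mem _ _ ?_
    have := h (insert o S)
    rw [sum_insert h1] at this
    convert this using 2
    abel

theorem Th_extOf {Z : Submodule ℂ M} (a : O → O → ℂ) {φ : Finset O → M} (h : φ ∈ extOf O Z) :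
    Th M a φ ∈ extOf O Z := by
  rw [Th_apply]
  exact sum_mem fun β _ => sum_mem fun β' _ =>
    Submodule.smul_mem _ _ (wedge_extOf _ (contr_extOf _ h))

theorem Th_par {p : Bool} (a : O → O → ℂ) {φ : Finset O → M} (h : φ ∈ par O M p) :
    Th M a φ ∈ par O M p := by
  rw [Th_apply]
  refine sum_mem fun β _ => sum_mem fun β' _ => Submodule.smul_mem _ _ ?_
  have := wedge_par β' (contr_par β h)
  rwa [Bool.not_not] at this

theorem Th_extW {c : O → G} {W : G → Submodule ℂ M} {γ κ : G} (a : O → O → ℂ)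
    (ha : ∀ β β', a β β' ≠ 0 → c β' - c β = κ) {φ : Finset O → M}
    (h : φ ∈ extW c W γ) : Th M a φ ∈ extW c W (γ + κ) := by
  rw [Th_apply]
  refine sum_mem fun β _ => sum_mem fun β' _ => ?_
  by_cases h0 : a β β' = 0
  · rw [h0, zero_smul]; exact Submodule.zero_mem _
  · refine Submodule.smul_mem _ _ ?_
    have := wedge_extW β' (contr_extW β h)
    rw [← ha β β' h0]
    convert this using 2
    abel

end Pool.Agent.MP_8be872_ag.H42
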